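import Pool.Agent.Q234.Sh

/-!
# All but boundedly many constants: `p_n + 2 c` is prime or a product of two primes, up to a small factor

Q1 asks whether `p_n + 2 P(n)` is prime for infinitely many `n`; here `P = c` is a positive constant. Let `S` be ANY
set of positive integers `n` with `p_n ≤ X` which contains at least the proportion `δ` of them. For ALL constants
`1 ≤ c ≤ X` with at most `K = K(δ, ε)` exceptions, a positive proportion of the `n` in `S` is such that
`p_n + 2 c = m s` with `m ≤ X ^ ε` and a number `s` which is a prime or a product of two primes larger than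
`X ^ (1 / 7)`. The number `K` does not depend on `X` and on the set `S`.

This is an application of the theorem `Pool.Agent.W23.DC.dense_almost_prime` of the starting files.
-/

set_option autoImplicit false

open Finset

namespace Pool.Agent.Results.MP_3aaefc_nt.BoundedlyManyConstants

/-- The `m`-th prime: `p 1 = 2`, `p 2 = 3`. -/
noncomputable def p (m : ℕ) : ℕ := Nat.nth Nat.Prime (m - 1)

/-- `a = m s`, where `m ≤ X ^ ε` and `s > 1` has at most two prime factors (counted with multiplicity), all of them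
larger than `X ^ (1 / 7)`. -/
def Almost (ε : ℝ) (X a : ℕ) : Prop :=
  ∃ m s : ℕ, a = m * s ∧ (m : ℝ) ≤ (X : ℝ) ^ ε ∧ 1 < s ∧
    s.primeFactorsList.length ≤ 2 ∧ ∀ l ∈ s.primeFactors, (X : ℝ) ^ (1 / 7 : ℝ) < l

open Classical in
/-- The `n` in `S` such that `p_n + 2 c` has this property. -/
noncomputable def good (ε : ℝ) (X : ℕ) (S : Finset ℕ) (c : ℕ) : Finset ℕ :=
  S.filter (fun n => Almost ε X (p n + 2 * c))

open Classical in
/-- **All but boundedly many constants.** -/
theorem result : ∀ δ ε : ℝ, 0 < δ → 0 < ε → ∃ (κ : ℝ) (K : ℕ), 0 < κ ∧ ∀ X : ℕ, 2 ≤ X →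
    ∀ S : Finset ℕ, (∀ n ∈ S, 1 ≤ n ∧ p n ≤ X) → δ * X / Real.log X ≤ S.card →
      ((Icc 1 X).filter (fun c => ((good ε X S c).card : ℝ) < κ * S.card)).card ≤ K := by
  intro δ ε hδ hε
  obtain ⟨κ, K, hκ, h⟩ := Pool.Agent.Q234.Sh.dense δ ε hδ hε
  refine ⟨κ, K, hκ, fun X hX S hS hSd => ?_⟩
  have h1 := h p X hX S (fun n hn => ⟨Nat.prime_nth_prime _, (hS n hn).2⟩) (by
    intro a ha b hb hab
    have e1 := (hS a ha).1
    have e2 := (hS b hb).1
    have e3 := Nat.nth_injective Nat.infinite_setOfPred_prime hab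
    omega) hSd
  refine le_trans ?_ h1
  apply card_le_card_of_injOn (fun c => 2 * c)
  · intro c hc
    rw [mem_coe, mem_filter, mem_Icc] at hc ⊢
    refine ⟨⟨Nat.zero_le _, by show 2 * c ≤ 2 * X; omega⟩, ?_⟩
    exact hc.2
  · intro a _ b _ hab
    have : 2 * a = 2 * b := hab
    omega

end Pool.Agent.Results.MP_3aaefc_nt.BoundedlyManyConstants
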