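import Pool.Agent.Q234.StM

/-!
# Constant polynomials: `p_n + 2 P_1(n), …, p_n + 2 P_r(n)` simultaneously prime in dense sets of `n`

Q1 asks whether `p_n + 2 P(n)` is prime for infinitely many `n`, for every integer-valued polynomial `P` with
positive leading coefficient; here the `P_i = c_i` are positive constants. Let `M` be the product of the
primes up to `y`, where `y` is of the order of magnitude `log log x`, so that `M` is a power of `log x`, and
let `S` be ANY set of at least `x / log ^ A x` integers `n ≤ x`. For almost all vectors `(c_1, …, c_r)` of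
multiples of `M / 2` the numbers `p_n + 2 c_1, …, p_n + 2 c_r` are simultaneously prime for the expected
number of elements `n` of `S`.
-/

set_option autoImplicit false

open Finset Polynomial

namespace Pool.Agent.Results.MP_3aaefc_nt.ConstantTuples

/-- The `m`-th prime: `p 1 = 2`, `p 2 = 3`. -/
noncomputable def p (m : ℕ) : ℕ := Nat.nth Nat.Prime (m - 1)

/-- The product of `1 - 1/q` over the primes `q ≤ y`. -/
noncomputable def V (y : ℕ) : ℝ := ∏ q ∈ (Icc 1 y).filter Nat.Prime, (1 - 1 / (q : ℝ))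

/-- The rational number `a` is a prime number. -/
def IsPrime (a : ℚ) : Prop := ∃ q : ℕ, q.Prime ∧ (q : ℚ) = a

open Classical in
/-- The elements `n` of `S` for which all the numbers `p_n + 2 P_i(n)` are prime. -/
noncomputable def good {r : ℕ} (S : Finset ℕ) (P : Fin r → ℚ[X]) : Finset ℕ :=
  S.filter (fun n => ∀ i, IsPrime ((p n : ℚ) + 2 * (P i).eval (n : ℚ)))

/-- The constant polynomial `M g / 2`, where `M` is the product of the primes `≤ y`. -/
noncomputable def const (y g : ℕ) : ℚ[X] := C ((((primorial y / 2) * g : ℕ)) : ℚ)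

theorem two_dvd {y : ℕ} (hy : 2 ≤ y) : 2 * (primorial y / 2) = primorial y := by
  have h : 2 ∣ primorial y := (Nat.prime_two.dvd_primorial_iff).2 hy
  omega

/-- **Constant polynomials.** Let `y ≥ 2` lie between `K₀ log log x` and `K₁ log log x`, let `M` be the product
of the primes `≤ y`, and let the windows satisfy `M (g₀ i + G i) ≤ x` and `G i ≥ x / (M log ^ C x)`. For every set
`S` of at least `x / log ^ A x` integers `1 ≤ n ≤ x` and for all but at most `ε ∏ G i` of the vectors `g`,
`1 ≤ g i ≤ G i`, the numbers `p_n + 2 P_i(n)` with the constant polynomials `P_i = (M / 2) (g₀ i + g i)` are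
simultaneously prime for at least `(1 - ε) #S / (V y log x) ^ r` elements `n` of `S`. -/
theorem result : ∀ (r A C : ℕ) (ε : ℝ), 0 < ε → ε ≤ 1 → ∃ K₀ : ℕ, ∀ K₁ : ℕ, ∃ x₀ : ℕ, ∀ x : ℕ, x₀ ≤ x →
    ∀ y : ℕ, 2 ≤ y → K₀ * Real.log (Real.log x) ≤ y → y ≤ K₁ * Real.log (Real.log x) →
    ∀ g₀ G : Fin r → ℕ, (∀ i, primorial y * (g₀ i + G i) ≤ x) →
      (∀ i, (x : ℝ) ≤ primorial y * G i * Real.log x ^ C) →
    ∀ S : Finset ℕ, S ⊆ Icc 1 x → (x : ℝ) ≤ S.card * Real.log x ^ A →
      (((Fintype.piFinset fun i => Icc 1 (G i)).filter (fun g =>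
        ((good S (fun i => const y (g₀ i + g i))).card : ℝ) <
        (1 - ε) * (S.card / (V y * Real.log x) ^ r))).card : ℝ) ≤ ε * ∏ i, (G i : ℝ) := by
  classical
  intro r A C' ε hε hε1
  obtain ⟨K₀, hK₀⟩ := Pool.Agent.Q234.StR.mult 1 (Or.inl rfl) r A 0 C' ε hε hε1
  refine ⟨K₀, fun K₁ => ?_⟩
  obtain ⟨x₀, hx₀⟩ := hK₀ K₁
  refine ⟨x₀, fun x hx y hy2' hy1 hy2 g₀ G hW1 hW2 S hS hSA => ?_⟩
  have h1 := hx₀ x hx y hy1 hy2 S hS hSA (fun _ => 1) (fun _ => le_rfl) (fun _ => by simp) g₀ G
      (fun i => by rw [pow_one]; exact hW1 i) (fun i => by rw [pow_one]; exact hW2 i)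
  simp only [pow_one, Nat.cast_one, one_mul] at h1
  refine le_trans (le_of_eq ?_) h1
  congr 2
  apply filter_congr
  intro g _
  have e1 : good S (fun i => const y (g₀ i + g i)) =
      S.filter (fun j => ∀ i, (Pool.Agent.Q234.StR.pn j + primorial y * (g₀ i + g i)).Prime) := by
    unfold good
    apply filter_congr
    intro n _
    apply forall_congr'
    intro i
    have e2 : (p n : ℚ) + 2 * (const y (g₀ i + g i)).eval (n : ℚ) =
        ((Pool.Agent.Q234.StR.pn n + primorial y * (g₀ i + g i) : ℕ) : ℚ) := by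
      unfold const
      rw [eval_C]
      have e3 : primorial y * (g₀ i + g i) = 2 * (primorial y / 2 * (g₀ i + g i)) := by
        rw [← mul_assoc, two_dvd hy2']
      rw [e3]
      push_cast
      rfl
    rw [e2]
    unfold IsPrime
    constructor
    · rintro ⟨q, hq1, hq2⟩
      have : q = Pool.Agent.Q234.StR.pn n + primorial y * (g₀ i + g i) := by exact_mod_cast hq2
      rwa [← this]
    · intro h
      exact ⟨_, h, rfl⟩
  rw [e1]
  rfl

end Pool.Agent.Results.MP_3aaefc_nt.ConstantTuples
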