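import Pool.Agent.Q234.StQ
import Pool.Agent.Q234.TQ

/-!
# Polynomials of degree one: `p_n + 2 P_1(n), …, p_n + 2 P_r(n)` simultaneously prime in arbitrary sets of `n`

Q1 asks whether `p_n + 2 P(n)` is prime for infinitely many `n`, for every integer-valued polynomial `P` with
positive leading coefficient. Here the `P_i = a_i X + c_i` have degree one, with arbitrary positive slopes up to a power
of `log x`, and `n` is restricted to an arbitrary set `S` of integers up to `x`. For almost all vectors
`(c_1, …, c_r)` in every vector of residue classes modulo `M / 2`, `M` the product of the primes up to `y`, where `y` is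
of the order of magnitude `log log x`, the numbers `p_n + 2 P_i(n)` are simultaneously prime for the expected number of
elements `n` of `S`, given the number of the `n` in `S` for which all of them are prime to `M`.
-/

set_option autoImplicit false

open Finset Polynomial

namespace Pool.Agent.Results.MP_3aaefc_nt.LinearPolynomials

/-- The `m`-th prime: `p 1 = 2`, `p 2 = 3`. -/
noncomputable def p (m : ℕ) : ℕ := Nat.nth Nat.Prime (m - 1)

/-- The product of `1 - 1/q` over the primes `q ≤ y`. -/
noncomputable def V (y : ℕ) : ℝ := ∏ q ∈ (Icc 1 y).filter Nat.Prime, (1 - 1 / (q : ℝ))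

/-- The rational number `a` is a prime number. -/
def IsPrime (a : ℚ) : Prop := ∃ q : ℕ, q.Prime ∧ (q : ℚ) = a

/-- The polynomial `a X + c`. -/
noncomputable def lin (a c : ℕ) : ℚ[X] := C (a : ℚ) * X + C (c : ℚ)

open Classical in
/-- The elements `n` of `S` for which all the numbers `p_n + 2 P_i(n)` are prime. -/
noncomputable def good {r : ℕ} (S : Finset ℕ) (P : Fin r → ℚ[X]) : Finset ℕ :=
  S.filter (fun n => ∀ i, IsPrime ((p n : ℚ) + 2 * (P i).eval (n : ℚ)))

open Classical in
/-- The elements `n` of `S` for which all the numbers `p_n + 2 (a_i n + b_i)` are prime to `M`. -/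
noncomputable def loc {r : ℕ} (S : Finset ℕ) (M : ℕ) (a b : Fin r → ℕ) : Finset ℕ :=
  S.filter (fun n => ∀ i, (p n + 2 * (a i * n + b i)).Coprime M)

theorem two_dvd {y : ℕ} (hy : 2 ≤ y) : 2 * (primorial y / 2) = primorial y := by
  have h : 2 ∣ primorial y := (Nat.prime_two.dvd_primorial_iff).2 hy
  omega

theorem odd_half {y : ℕ} (hy : 2 ≤ y) : Nat.Coprime 2 (primorial y / 2) := by
  have h1 : Squarefree (primorial y) := by
    unfold primorial
    exact Finset.squarefree_prod_of_pairwise_isCoprime (by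
      intro a ha b hb hab
      rw [mem_coe, mem_filter] at ha hb
      exact (Nat.coprime_iff_isRelPrime.1 ((Nat.coprime_primes ha.2 hb.2).2 hab))) (by
      intro a ha
      exact (mem_filter.1 ha).2.prime.squarefree)
  rw [← two_dvd hy] at h1
  exact Nat.coprime_of_squarefree_mul h1

theorem count_one {m : ℕ} (h2 : Nat.Coprime 2 m) (v : ℕ) : ((Icc 1 m).filter (fun b => (v + 2 * b).Coprime m)).card =
    m.totient := by
  obtain ⟨t, ht⟩ : Odd m := Nat.coprime_two_left.1 h2
  rw [← Pool.Agent.Q234.TQ.unit_classes m (v * (t + 1))]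
  congr 1
  apply filter_congr
  intro b _
  have e1 : 2 * (v * (t + 1) + b) = (v + 2 * b) + m * v := by
    rw [ht]
    ring
  have e2 : (2 * (v * (t + 1) + b)).Coprime m ↔ (v * (t + 1) + b).Coprime m := by
    rw [Nat.coprime_mul_iff_left]
    exact ⟨fun h => h.2, fun h => ⟨h2, h⟩⟩
  rw [← e2, e1, Nat.coprime_add_mul_left_left]

theorem p_odd {n : ℕ} (hn : 2 ≤ n) : Nat.Coprime 2 (p n) := by
  have h1 := Nat.add_two_le_nth_prime (n - 1)
  exact (Nat.coprime_primes Nat.prime_two (Nat.prime_nth_prime (n - 1))).2 (by omega)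

/-- (1) Let `y ≥ 2` lie between `K₀ log log x` and `K₁ log log x`, let `M` be the product of the primes `≤ y`, and let
the windows satisfy `M (g₀ i + G i) ≤ x` and `G i ≥ x / (M log ^ C x)`. For all slopes `1 ≤ a i ≤ log ^ B x`, all
`b i ≤ x` and every set `S` of integers `1 ≤ n ≤ x` for which `loc S M a b` has at least `x / log ^ A x` elements, for all
but at most `ε ∏ G i` of the vectors `g`, `1 ≤ g i ≤ G i`, the numbers `p_n + 2 P_i(n)` with the polynomials
`P_i = a_i X + b_i + (M / 2) (g₀ i + g i)` are simultaneously prime for at least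
`(1 - ε) #(loc S M a b) / (V y log x) ^ r` elements `n` of `S`. (2) For every finite set `S` of integers `n ≥ 2` and
`y ≥ 2` the sum of `#(loc S M a b)` over the vectors `b` with `1 ≤ b i ≤ M / 2` is `φ(M / 2) ^ r #S`. -/
theorem result : (∀ (r A B C' : ℕ) (ε : ℝ), 0 < ε → ε ≤ 1 → ∃ K₀ : ℕ, ∀ K₁ : ℕ, ∃ x₀ : ℕ, ∀ x : ℕ, x₀ ≤ x →
    ∀ y : ℕ, 2 ≤ y → K₀ * Real.log (Real.log x) ≤ y → y ≤ K₁ * Real.log (Real.log x) →
    ∀ a b g₀ G : Fin r → ℕ, (∀ i, 1 ≤ a i ∧ (a i : ℝ) ≤ Real.log x ^ B) → (∀ i, b i ≤ x) →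
      (∀ i, primorial y * (g₀ i + G i) ≤ x) → (∀ i, (x : ℝ) ≤ primorial y * G i * Real.log x ^ C') →
    ∀ S : Finset ℕ, S ⊆ Icc 1 x → (x : ℝ) ≤ (loc S (primorial y) a b).card * Real.log x ^ A →
      (((Fintype.piFinset fun i => Icc 1 (G i)).filter (fun g =>
        ((good S (fun i => lin (a i) (b i + primorial y / 2 * (g₀ i + g i)))).card : ℝ) <
        (1 - ε) * ((loc S (primorial y) a b).card / (V y * Real.log x) ^ r))).card : ℝ) ≤ ε * ∏ i, (G i : ℝ)) ∧
    (∀ (r y : ℕ), 2 ≤ y → ∀ a : Fin r → ℕ, ∀ S : Finset ℕ, (∀ n ∈ S, 2 ≤ n) →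
      ∑ b ∈ Fintype.piFinset (fun _ : Fin r => Icc 1 (primorial y / 2)), (loc S (primorial y) a b).card =
      (primorial y / 2).totient ^ r * S.card) := by
  classical
  constructor
  · intro r A B C' ε hε hε1
    obtain ⟨K₀, hK₀⟩ := Pool.Agent.Q234.StQ.stepQ (B + 4) C' r (fun _ => 1) (fun _ => Or.inl rfl) A ε hε hε1
    refine ⟨K₀, fun K₁ => ?_⟩
    obtain ⟨x₀, hx₀⟩ := hK₀ K₁
    obtain ⟨n3, hn3⟩ := Pool.Agent.H373R2.T7.ev_L' 6
    obtain ⟨n4, hn4⟩ := Pool.Agent.Y877.SX.nth_le_log
    refine ⟨max x₀ (max n3 (max n4 2)), fun x hx y hy2' hy1 hy2 a b g₀ G ha hb hW1 hW2 S hS hSA => ?_⟩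
    have c1 : x₀ ≤ x := le_trans (le_max_left _ _) hx
    have c2 : n3 ≤ x := le_trans (le_trans (le_max_left _ _) (le_max_right _ _)) hx
    have c3 : n4 ≤ x := le_trans (le_trans (le_trans (le_max_left _ _) (le_max_right _ _)) (le_max_right _ _)) hx
    have c4 : 2 ≤ x := le_trans (le_trans (le_trans (le_max_right _ _) (le_max_right _ _)) (le_max_right _ _)) hx
    have hL6 : 6 ≤ Real.log x := hn3 x c2
    obtain ⟨J, hJd⟩ : ∃ J, J = loc S (primorial y) a b := ⟨_, rfl⟩
    rw [← hJd] at hSA ⊢
    have hJm : ∀ n ∈ J, n ∈ S ∧ ∀ i, (p n + 2 * (a i * n + b i)).Coprime (primorial y) := by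
      intro n hn
      rw [hJd] at hn
      unfold loc at hn
      rwa [mem_filter] at hn
    have hcop : ∀ v : ℕ, v.Coprime (primorial y) → 1 ≤ v ∧ ∀ l : ℕ, l.Prime → l ≤ y → ¬ l ∣ v := by
      intro v hv
      have h2 : ∀ l : ℕ, l.Prime → l ≤ y → ¬ l ∣ v := by
        intro l hl hly hd
        have h3 := Nat.dvd_gcd hd (hl.dvd_primorial_iff.2 hly)
        rw [Nat.coprime_iff_gcd_eq_one.1 hv] at h3
        exact hl.one_lt.ne' (Nat.dvd_one.1 h3)
      refine ⟨?_, h2⟩
      by_contra h0
      exact h2 2 Nat.prime_two hy2' (by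
        have : v = 0 := by omega
        rw [this]
        exact dvd_zero 2)
    have h1 := hx₀ x c1 y hy1 hy2 J hSA (fun i n => p n + 2 * (a i * n + b i)) (by
        intro i n hn m hm hnm
        simp only at hnm
        have hn1 := mem_Icc.1 (hS (hJm n (mem_coe.1 hn)).1)
        have hm1 := mem_Icc.1 (hS (hJm m (mem_coe.1 hm)).1)
        have hinf := Nat.infinite_setOfPred_prime
        rcases lt_trichotomy n m with h | h | h
        · exfalso
          have h2 : p n < p m := (Nat.nth_lt_nth hinf).2 (by omega)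
          have h3 : a i * n ≤ a i * m := Nat.mul_le_mul_left _ h.le
          omega
        · exact h
        · exfalso
          have h2 : p m < p n := (Nat.nth_lt_nth hinf).2 (by omega)
          have h3 : a i * m ≤ a i * n := Nat.mul_le_mul_left _ h.le
          omega) (by
        intro i n hn
        have h2 := hJm n hn
        have h3 := hcop _ (h2.2 i)
        refine ⟨h3.1, h3.2, ?_⟩
        have hn1 := mem_Icc.1 (hS h2.1)
        have h4 := hn4 x c3 (n - 1) (by omega)
        have h5 : (p n : ℝ) ≤ x * Real.log x ^ 2 := h4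
        have hx1 : (2 : ℝ) ≤ x := by exact_mod_cast c4
        have hnx : (n : ℝ) ≤ x := by exact_mod_cast hn1.2
        have hbx : (b i : ℝ) ≤ x := by exact_mod_cast hb i
        have hB1 : 1 ≤ Real.log x ^ B := one_le_pow₀ (by linarith)
        have h6 : (a i : ℝ) * n ≤ Real.log x ^ B * x := mul_le_mul (ha i).2 hnx (Nat.cast_nonneg _) (by positivity)
        push_cast
        have e1 : (x : ℝ) * Real.log x ^ (B + 4) = (x * Real.log x ^ B) * Real.log x ^ 4 := by rw [pow_add]; ring
        rw [e1]
        have e2 : Real.log x ^ 2 + 4 ≤ Real.log x ^ 4 := by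
          have : Real.log x ^ 4 = Real.log x ^ 2 * Real.log x ^ 2 := by ring
          rw [this]
          have h36 : 36 ≤ Real.log x ^ 2 := by nlinarith
          nlinarith
        have e3 : (x : ℝ) ≤ x * Real.log x ^ B := le_mul_of_one_le_right (by linarith) hB1
        have e4 : (x * Real.log x ^ B) * (Real.log x ^ 2 + 4) ≤ (x * Real.log x ^ B) * Real.log x ^ 4 :=
          mul_le_mul_of_nonneg_left e2 (by positivity)
        have e5 : (x : ℝ) * Real.log x ^ 2 ≤ (x * Real.log x ^ B) * Real.log x ^ 2 :=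
          mul_le_mul_of_nonneg_right e3 (by positivity)
        have e6 : Real.log x ^ B * x = x * Real.log x ^ B := mul_comm _ _
        rw [e6] at h6
        linarith) g₀ G (fun i => by rw [pow_one]; exact hW1 i) (fun i => by rw [pow_one]; exact hW2 i)
    simp only [pow_one, Nat.cast_one, one_mul, prod_const, card_univ, Fintype.card_fin] at h1
    refine le_trans ?_ h1
    apply Nat.cast_le.2
    apply card_le_card
    intro g hg
    rw [mem_filter] at hg ⊢
    refine ⟨hg.1, ?_⟩
    have hVe : V y = Pool.Agent.H373R2.T7.Vz y := rfl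
    rw [← hVe]
    refine lt_of_le_of_lt ?_ hg.2
    apply Nat.cast_le.2
    apply card_le_card
    intro n hn
    rw [mem_filter] at hn
    unfold good
    rw [mem_filter]
    refine ⟨(hJm n hn.1).1, fun i => ?_⟩
    refine ⟨_, hn.2 i, ?_⟩
    unfold lin
    rw [eval_add, eval_mul, eval_C, eval_X, eval_C]
    have e3 : primorial y * (g₀ i + g i) = 2 * (primorial y / 2 * (g₀ i + g i)) := by
      rw [← mul_assoc, two_dvd hy2']
    rw [e3]
    push_cast
    ring
  · intro r y hy a S hS
    obtain ⟨m, hm⟩ : ∃ m, m = primorial y / 2 := ⟨_, rfl⟩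
    have h2m := odd_half hy
    have hM := two_dvd hy
    rw [← hm] at h2m hM ⊢
    have e1 : ∀ b : Fin r → ℕ, (loc S (primorial y) a b).card = ∑ n ∈ S,
        (if ∀ i, (p n + 2 * (a i * n + b i)).Coprime (primorial y) then 1 else 0) := by
      intro b
      unfold loc
      rw [card_filter]
    simp_rw [e1]
    rw [sum_comm]
    have e2 : ∀ n ∈ S, ∑ b ∈ Fintype.piFinset (fun _ : Fin r => Icc 1 m),
        (if ∀ i, (p n + 2 * (a i * n + b i)).Coprime (primorial y) then 1 else 0) = m.totient ^ r := by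
      intro n hn
      have hodd := p_odd (hS n hn)
      rw [← card_filter]
      have e3 : (Fintype.piFinset (fun _ : Fin r => Icc 1 m)).filter
          (fun b : Fin r → ℕ => ∀ i, (p n + 2 * (a i * n + b i)).Coprime (primorial y)) =
          Fintype.piFinset (fun i : Fin r => (Icc 1 m).filter
            (fun c => ((p n + 2 * (a i * n)) + 2 * c).Coprime m)) := by
        ext b
        rw [mem_filter, Fintype.mem_piFinset, Fintype.mem_piFinset]
        simp only [mem_filter]
        have key : ∀ i, (p n + 2 * (a i * n + b i)).Coprime (primorial y) ↔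
            ((p n + 2 * (a i * n)) + 2 * b i).Coprime m := by
          intro i
          have e4 : p n + 2 * (a i * n + b i) = (p n + 2 * (a i * n)) + 2 * b i := by ring
          rw [e4, ← hM, Nat.coprime_mul_iff_right]
          refine ⟨fun h => h.2, fun h => ⟨?_, h⟩⟩
          have e5 : (p n + 2 * (a i * n)) + 2 * b i = p n + 2 * (a i * n + b i) := by ring
          rw [e5, Nat.coprime_add_mul_left_left]
          exact hodd.symm
        constructor
        · rintro ⟨h3, h4⟩ i
          exact ⟨h3 i, (key i).1 (h4 i)⟩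
        · intro h
          exact ⟨fun i => (h i).1, fun i => (key i).2 (h i).2⟩
      rw [e3, Fintype.card_piFinset]
      have e6 : ∀ i : Fin r, ((Icc 1 m).filter (fun c => ((p n + 2 * (a i * n)) + 2 * c).Coprime m)).card = m.totient :=
        fun i => count_one h2m _
      rw [prod_congr rfl (fun i _ => e6 i), prod_const, card_univ, Fintype.card_fin]
    rw [sum_congr rfl e2, sum_const, smul_eq_mul, mul_comm]

end Pool.Agent.Results.MP_3aaefc_nt.LinearPolynomials
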