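import Pool.Agent.TH882.X4

/-!
# Fixed constant polynomials: runs of consecutive `n` with almost prime `p_n + 2 P(n)`

Q1 asks whether `p_n + 2 P(n)` is prime for infinitely many `n`. Let `P = c`, `c` in a finite set of
positive constants for which there is no local obstruction (for example a single constant). For all `k ≥ 1`
and `r ≥ 0` there are many multiples `n = j k` of `k` such that for the `r + 1` consecutive integers
`m = n, n + 1, …, n + r` and for all these constants the numbers `p_m + 2 c` have at most `R` prime factors.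
-/

set_option autoImplicit false

open Filter Topology Polynomial

namespace Pool.Agent.Results.MP_3aaefc_nt.RunsFixedConstants

/-- The `m`-th prime: `p 1 = 2`, `p 2 = 3`, `p 3 = 5`, and so on. -/
noncomputable def p (m : ℕ) : ℕ := Nat.nth Nat.Prime (m - 1)

/-- No local obstruction: for every prime `l` there is an integer `x`, not divisible by `l`, for which no
`x + 2 c`, `c ∈ T`, is divisible by `l`. -/
def Admissible (T : Finset ℕ) : Prop :=
  ∀ l : ℕ, l.Prime → ∃ x : ℤ, ¬ (l : ℤ) ∣ x ∧ ∀ c ∈ T, ¬ (l : ℤ) ∣ x + 2 * c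

/-- The rational number `a` is a positive integer with at most `R` prime factors, counted with
multiplicity. -/
def AlmostPrime (R : ℕ) (a : ℚ) : Prop :=
  ∃ q : ℕ, 1 ≤ q ∧ ArithmeticFunction.cardFactors q ≤ R ∧ (q : ℚ) = a

/-- The integers `j ≥ 1` with `p_{jk+r} ≤ x` such that for all `m = jk, jk + 1, …, jk + r` and all constant
polynomials `P = c`, `c ∈ T`, the number `p_m + 2 P(m)` has at most `R` prime factors. -/
def good (T : Finset ℕ) (k r R x : ℕ) : Set ℕ :=
  {j : ℕ | 1 ≤ j ∧ p (j * k + r) ≤ x ∧ ∀ i ≤ r, ∀ P : ℚ[X], (∃ c ∈ T, P = C (c : ℚ)) →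
    AlmostPrime R ((p (j * k + i) : ℚ) + 2 * P.eval ((j * k + i : ℕ) : ℚ))}

/-- Every single positive constant is admissible. -/
theorem admissible_singleton (c : ℕ) : Admissible {c} := by
  intro l hl
  have key : ∀ x : ℤ, ¬ (l : ℤ) ∣ x → ¬ (l : ℤ) ∣ x + 2 * c → ∃ x : ℤ, ¬ (l : ℤ) ∣ x ∧ ∀ c' ∈ ({c} : Finset ℕ), ¬ (l : ℤ) ∣ x + 2 * c' := by
    intro x h1 h2
    refine ⟨x, h1, fun c' hc' => ?_⟩
    rw [Finset.mem_singleton] at hc'
    rw [hc']
    exact h2
  have h1 : ¬ (l : ℤ) ∣ 1 := by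
    intro h
    have := Int.le_of_dvd one_pos h
    have := hl.two_le
    omega
  by_cases h2 : (l : ℤ) ∣ 1 + 2 * c
  · have hl2 : l ≠ 2 := by
      rintro rfl
      have h3 : (2 : ℤ) ∣ 1 + 2 * c := by exact_mod_cast h2
      omega
    have hl3 : (3 : ℤ) ≤ l := by
      have := hl.two_le
      omega
    apply key (-1)
    · rwa [dvd_neg]
    · intro h3
      have h4 : (l : ℤ) ∣ (1 + 2 * c) - (-1 + 2 * c) := dvd_sub h2 h3
      have h5 : (1 + 2 * (c : ℤ)) - (-1 + 2 * c) = 2 := by ring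
      rw [h5] at h4
      have := Int.le_of_dvd two_pos h4
      omega
  · exact key 1 h1 h2

/-- **Fixed constants.** -/
theorem result : (∀ c : ℕ, Admissible {c}) ∧ ∀ T : Finset ℕ, Admissible T → ∀ k r : ℕ, 1 ≤ k → ∃ R D : ℕ,
    ∀ᶠ x : ℕ in atTop, (x : ℝ) / Real.log x ^ D ≤ ((good T k r R x).ncard : ℝ) := by
  classical
  refine ⟨admissible_singleton, fun T hT k r hk => ?_⟩
  obtain ⟨R, D, x₀, h⟩ := Pool.Agent.TH882.HX.indices (T.image (fun c : ℕ => 2 * (c : ℤ))) (by
    intro l hl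
    obtain ⟨x, hx1, hx2⟩ := hT l hl
    refine ⟨x, hx1, ?_⟩
    intro a ha
    rw [Finset.mem_image] at ha
    obtain ⟨c, hc, rfl⟩ := ha
    exact hx2 c hc) k r hk
  refine ⟨R, D, ?_⟩
  filter_upwards [eventually_ge_atTop x₀] with x hx
  refine (h x hx).trans ?_
  apply Nat.cast_le.2
  apply Set.ncard_le_ncard
  · rintro j ⟨h1, h2, h3⟩
    refine ⟨h1, h2, ?_⟩
    rintro i hi P ⟨c, hc, rfl⟩
    have e1 := h3 i hi (2 * (c : ℤ)) (Finset.mem_image.2 ⟨c, hc, rfl⟩)
    obtain ⟨e0, e2⟩ := e1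
    have e3 : ((Nat.nth Nat.Prime (j * k + i - 1) : ℤ) + 2 * (c : ℤ)).toNat =
        Nat.nth Nat.Prime (j * k + i - 1) + 2 * c := by omega
    rw [e3] at e2
    refine ⟨Nat.nth Nat.Prime (j * k + i - 1) + 2 * c, ?_, e2, ?_⟩
    · have := (Nat.prime_nth_prime (j * k + i - 1)).one_lt
      omega
    · rw [eval_C]
      push_cast
      rfl
  · apply (Finset.finite_toSet (Finset.range (x + 1))).subset
    rintro j ⟨h1, h2, -⟩
    rw [Finset.mem_coe, Finset.mem_range]
    unfold p at h2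
    have e1 := Nat.add_two_le_nth_prime (j * k + r - 1)
    have e2 : j * 1 ≤ j * k := Nat.mul_le_mul_left j hk
    omega

end Pool.Agent.Results.MP_3aaefc_nt.RunsFixedConstants
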